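import Pool.Agent.W619.Y.Stm

set_option autoImplicit false

universe u v

open FF

namespace Pool.Agent.W828.PG

section
variable {k K : Type*} [Field k] [Field K] [Algebra k K]

lemma red_sum (P : Place k K) {ι : Type*} (s : Finset ι) (g : ι → K) (h : ∀ i ∈ s, P.Reg (g i)) :
    P.Reg (∑ i ∈ s, g i) ∧ P.red (∑ i ∈ s, g i) = ∑ i ∈ s, P.red (g i) := by
  classical
  induction s using Finset.induction_on with
  | empty => simp [P.reg_zero, P.red_zero]
  | insert a s ha ih =>
    have h1 := ih (fun i hi => h i (Finset.mem_insert_of_mem hi))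
    have h2 := h a (Finset.mem_insert_self a s)
    rw [Finset.sum_insert ha, Finset.sum_insert ha]
    exact ⟨P.reg_add h2 h1.1, by rw [P.red_add h2 h1.1, h1.2]⟩

lemma reg_pow (P : Place k K) {f : K} (hf : P.Reg f) (n : ℕ) : P.Reg (f ^ n) := by
  induction n with
  | zero => rw [pow_zero]; exact P.reg_one
  | succ n ih => rw [pow_succ]; exact P.reg_mul ih hf

lemma red_aeval (P : Place k K) {ι : Type} (y : ι → K) (hy : ∀ i, P.Reg (y i))
    (p : MvPolynomial ι k) :
    P.Reg (MvPolynomial.aeval y p) ∧
      P.red (MvPolynomial.aeval y p) = MvPolynomial.aeval (fun i => P.red (y i)) p := by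
  induction p using MvPolynomial.induction_on with
  | C a =>
    rw [MvPolynomial.algHom_C, MvPolynomial.algHom_C]
    exact ⟨P.reg_const a, (P.algebraMap_RF a).symm⟩
  | add p q hp hq =>
    rw [map_add, map_add, P.red_add hp.1 hq.1, hp.2, hq.2]
    exact ⟨P.reg_add hp.1 hq.1, rfl⟩
  | mul_X p i hp =>
    rw [map_mul, map_mul, MvPolynomial.aeval_X, MvPolynomial.aeval_X, P.red_mul hp.1 (hy i), hp.2]
    exact ⟨P.reg_mul hp.1 (hy i), rfl⟩

end

theorem main : Pool.Agent.W619.Y.S_DIVI.{u, v} := by
  intro k K L _ _ _ _ _ _ _ _ _ n v w e hov hw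
  obtain ⟨y, hy⟩ := hw
  have hyr : ∀ i, w.Reg (y i) := by
    intro i
    have h := hy (MvPolynomial.X i) (MvPolynomial.X_ne_zero i)
    rw [MvPolynomial.aeval_X] at h
    exact Or.inr h.2.ge
  have hc : AlgebraicIndependent k (fun i => w.red (y i)) := by
    rw [algebraicIndependent_iff]
    intro p hp
    by_contra hp0
    have h := hy p hp0
    have h2 := red_aeval w y hyr p
    exact w.red_ne_zero h.1 h.2 (h2.2.trans hp)
  letI : Algebra v.RF w.RF := hov.resMap.toRingHom.toAlgebra
  have hmap : ∀ a : v.RF, algebraMap v.RF w.RF a = hov.resMap a := fun a => rfl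
  haveI : IsScalarTower k v.RF w.RF := IsScalarTower.of_algebraMap_eq fun c => by
    rw [hmap]
    exact (hov.resMap.commutes c).symm
  haveI halg : Algebra.IsAlgebraic v.RF w.RF := by
    refine ⟨fun c => ?_⟩
    obtain ⟨f, hf, rfl⟩ := w.red_surjective c
    obtain ⟨p, hp0, hp⟩ := (Algebra.IsAlgebraic.isAlgebraic (R := K) f)
    obtain ⟨j, hj, hmin⟩ := Finset.exists_min_image p.support (fun i => v.ord (p.coeff i))
      (Polynomial.support_nonempty.2 hp0)
    have hj0 : p.coeff j ≠ 0 := Polynomial.mem_support_iff.1 hj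
    have hq : ∀ i, v.Reg (p.coeff i / p.coeff j) := by
      intro i
      by_cases hi : p.coeff i = 0
      · rw [hi, zero_div]; exact v.reg_zero
      · right
        rw [v.ord_div hi hj0]
        have := hmin i (Polynomial.mem_support_iff.2 hi)
        linarith
    let Q : Polynomial v.RF :=
      ∑ i ∈ Finset.range (p.natDegree + 1), Polynomial.monomial i (v.red (p.coeff i / p.coeff j))
    refine ⟨Q, ?_, ?_⟩
    · intro hQ
      have h1 : Q.coeff j = 1 := by
        simp only [Q, Polynomial.finsetSum_coeff, Polynomial.coeff_monomial]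
        rw [Finset.sum_ite_eq' (Finset.range (p.natDegree + 1)) j]
        rw [if_pos (Finset.mem_range.2 (Nat.lt_succ_of_le (Polynomial.le_natDegree_of_ne_zero hj0))),
          div_self hj0, v.red_one]
      rw [hQ] at h1
      simp at h1
    · have h2 : Polynomial.aeval (w.red f) Q = ∑ i ∈ Finset.range (p.natDegree + 1),
          w.red (algebraMap K L (p.coeff i / p.coeff j) * f ^ i) := by
        simp only [Q, map_sum, Polynomial.aeval_monomial]
        refine Finset.sum_congr rfl fun i _ => ?_
        rw [hmap, hov.resMap_red (hq i), w.red_mul (hov.reg.2 (hq i)) (reg_pow w hf i),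
          w.red_pow hf]
      have h3 := red_sum w (Finset.range (p.natDegree + 1))
        (fun i => algebraMap K L (p.coeff i / p.coeff j) * f ^ i)
        (fun i _ => w.reg_mul (hov.reg.2 (hq i)) (reg_pow w hf i))
      rw [h2, ← h3.2]
      have h4 : ∑ i ∈ Finset.range (p.natDegree + 1),
          algebraMap K L (p.coeff i / p.coeff j) * f ^ i = 0 := by
        have h5 : ∑ i ∈ Finset.range (p.natDegree + 1),
            algebraMap K L (p.coeff i / p.coeff j) * f ^ i
            = (algebraMap K L (p.coeff j))⁻¹ * Polynomial.aeval f p := by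
          rw [Polynomial.aeval_eq_sum_range, Finset.mul_sum]
          refine Finset.sum_congr rfl fun i _ => ?_
          rw [map_div₀, Algebra.smul_def]
          ring
        rw [h5, hp, mul_zero]
      rw [h4, w.red_zero]
  have h1 : ((n - 1 : ℕ) : Cardinal) ≤ Algebra.trdeg k w.RF := by
    have := hc.lift_cardinalMk_le_trdeg
    simpa using this
  have h2 : Algebra.trdeg k v.RF = Algebra.trdeg k w.RF := by
    rw [← trdeg_add_eq k v.RF (A := w.RF), trdeg_eq_zero (R := v.RF) (A := w.RF), add_zero]
  obtain ⟨s, hs⟩ := exists_isTranscendenceBasis k v.RF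
  have h3 : ((n - 1 : ℕ) : Cardinal) ≤ Cardinal.mk s := by
    rw [hs.cardinalMk_eq_trdeg, h2]
    exact h1
  have h4 : Nonempty (Fin (n - 1) ↪ s) := by
    rw [← Cardinal.lift_mk_le']
    simpa using h3
  obtain ⟨g⟩ := h4
  have hd : AlgebraicIndependent k (fun i : Fin (n - 1) => ((g i : s) : v.RF)) :=
    hs.1.comp g g.injective
  choose z hz1 hz2 using fun i : Fin (n - 1) => v.red_surjective ((g i : s) : v.RF)
  refine ⟨z, fun p hp => ?_⟩
  have h5 := red_aeval v z hz1 p
  have h6 : v.red (MvPolynomial.aeval z p) ≠ 0 := by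
    rw [h5.2]
    intro h7
    apply hp
    refine (algebraicIndependent_iff.1 hd) p ?_
    rw [← h7]
    congr 2
    funext i
    exact (hz2 i).symm
  have h8 : MvPolynomial.aeval z p ≠ 0 := by
    intro h9
    rw [h9, v.red_zero] at h6
    exact h6 rfl
  refine ⟨h8, ?_⟩
  have h9 : ¬ (0 < v.ord (MvPolynomial.aeval z p)) := fun h =>
    h6 ((v.red_eq_zero_iff h5.1).2 (Or.inr h))
  have h10 := (v.reg_iff h8).1 h5.1
  omega

end Pool.Agent.W828.PG
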